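import Pool.Agent.Helper73.HV.Slc

/-!
# Module F: the line formula

`FF Ψ (v + t w) = ∫ |t - s| q s ds` with `q s = (1 + s^2)^(-3/2) JJ Ψ (b_s)`.
-/

open MeasureTheory Set Metric Real
open scoped RealInnerProductSpace ENNReal
open Pool.Agent.Helper16.Buoy (E)
open Pool.Agent.Helper73.HV

namespace Pool.Agent.Helper9HV

/-! ## One dimension -/

/-- sign -/
noncomputable def sg (x : ℝ) : ℝ := if x < 0 then -1 else 1

theorem measurable_sg : Measurable sg :=
  Measurable.ite measurableSet_Iio measurable_const measurable_const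

theorem hasDerivAt_abs_sg {x : ℝ} (hx : x ≠ 0) : HasDerivAt (fun y : ℝ => |y|) (sg x) x := by
  rcases lt_or_gt_of_ne hx with h | h
  · rw [sg, if_pos h]
    exact hasDerivAt_abs_neg h
  · rw [sg, if_neg (not_lt.mpr h.le)]
    exact hasDerivAt_abs_pos h

theorem hasDerivAt_g {q : ℝ → ℝ} (hc : Continuous q) (hq : Integrable q)
    (hs : ∀ t, Integrable (fun s => |t - s| * q s)) (t : ℝ) :
    HasDerivAt (fun t => ∫ s, |t - s| * q s) (∫ s, sg (t - s) * q s) t := by
  have h := hasDerivAt_integral_of_dominated_loc_of_lip (μ := (volume : Measure ℝ))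
    (F := fun t s => |t - s| * q s) (F' := fun s => sg (t - s) * q s)
    (x₀ := t) (s := univ) (bound := fun s => |q s|) Filter.univ_mem ?_ (hs t) ?_ ?_ hq.abs ?_
  · exact h.2
  · exact Filter.Eventually.of_forall fun x => (hs x).aestronglyMeasurable
  · apply AEStronglyMeasurable.mul
    · exact (measurable_sg.comp (measurable_const.sub measurable_id)).aestronglyMeasurable
    · exact hc.aestronglyMeasurable
  · refine Filter.Eventually.of_forall fun s => ?_
    refine LipschitzOnWith.of_dist_le_mul ?_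
    intro x _ y _
    rw [Real.dist_eq, Real.dist_eq, ← sub_mul, abs_mul]
    have h1 : (Real.nnabs (|q s|) : ℝ) = |q s| := by simp
    rw [h1, mul_comm]
    apply mul_le_mul_of_nonneg_left _ (abs_nonneg _)
    have := abs_abs_sub_abs_le_abs_sub (x - s) (y - s)
    simpa using this
  · have h1 : ∀ᵐ s : ℝ, s ≠ t := by
      rw [ae_iff]; simp
    filter_upwards [h1] with s hs
    have h2 : t - s ≠ 0 := sub_ne_zero.mpr (Ne.symm hs)
    have h3 : HasDerivAt (fun x : ℝ => |x - s|) (sg (t - s)) t := by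
      have h4 := HasDerivAt.comp t (hasDerivAt_abs_sg h2) ((hasDerivAt_id t).sub_const s)
      rw [mul_one] at h4
      exact h4
    exact h3.mul_const _

theorem integral_sg {q : ℝ → ℝ} (hq : Integrable q) (t : ℝ) :
    ∫ s, sg (t - s) * q s = 2 * (∫ s in Iic t, q s) - ∫ s, q s := by
  have h1 : ∀ᵐ s : ℝ, sg (t - s) * q s = 2 * (Iic t).indicator q s - q s := by
    refine Filter.Eventually.of_forall fun s => ?_
    by_cases h : s ≤ t
    · rw [sg, if_neg (by linarith), indicator_of_mem (mem_Iic.mpr h)]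
      ring
    · rw [sg, if_pos (by linarith), indicator_of_notMem (by simpa using h)]
      ring
  rw [integral_congr_ae h1, integral_sub ((hq.indicator measurableSet_Iic).const_mul 2) hq,
    integral_const_mul, integral_indicator measurableSet_Iic]

theorem hasDerivAt_G {q : ℝ → ℝ} (hc : Continuous q) (hq : Integrable q) (t : ℝ) :
    HasDerivAt (fun t => ∫ s, sg (t - s) * q s) (2 * q t) t := by
  have h1 : (fun t => ∫ s, sg (t - s) * q s) =
      fun t => 2 * ((∫ s in Iic (0 : ℝ), q s) + ∫ s in (0 : ℝ)..t, q s) - ∫ s, q s := by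
    ext t
    rw [integral_sg hq, ← intervalIntegral.integral_Iic_sub_Iic hq.integrableOn hq.integrableOn]
    ring
  rw [h1]
  have h2 : HasDerivAt (fun t => ∫ s in (0 : ℝ)..t, q s) (q t) t :=
    (hc.integral_hasStrictDerivAt 0 t).hasDerivAt
  exact ((h2.const_add _).const_mul 2).sub_const _

/-- scaling of a lower integral -/
theorem lint_scale {G : ℝ → ℝ≥0∞} (hG : Measurable G) {c : ℝ} (hc : c ≠ 0) :
    ∫⁻ x, G x = ENNReal.ofReal |c| * ∫⁻ s, G (c * s) := by
  have h1 : ∫⁻ s, G (c * s) = ∫⁻ x, G x ∂(Measure.map (c * ·) volume) := by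
    rw [lintegral_map hG (measurable_const_mul c)]
  rw [h1, Real.map_volume_mul_left hc, lintegral_smul_measure, smul_eq_mul, ← mul_assoc,
    ← ENNReal.ofReal_mul (abs_nonneg _), ← abs_mul, mul_inv_cancel₀ hc, abs_one, ENNReal.ofReal_one,
    one_mul]

/-! ## Gaussian bounds -/

theorem gauss_pi (m : ℕ) {a : ℝ} (ha : 0 < a) :
    Integrable (fun z : Fin m → ℝ => exp (-a * ∑ i, z i ^ 2)) := by
  have h1 : (fun z : Fin m → ℝ => exp (-a * ∑ i, z i ^ 2)) = fun z => ∏ i, exp (-a * z i ^ 2) := by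
    ext z
    rw [← Real.exp_sum, Finset.mul_sum]
  rw [h1]
  exact Integrable.fintype_prod (f := fun _ : Fin m => fun x : ℝ => exp (-a * x ^ 2))
    (fun _ => integrable_exp_neg_mul_sq ha)

theorem gauss_Y (m : ℕ) {a : ℝ} (ha : 0 < a) :
    Integrable (fun y : ℝ × (Fin m → ℝ) => exp (-a * (y.1 ^ 2 + ∑ i, y.2 i ^ 2))) := by
  have h1 : (fun y : ℝ × (Fin m → ℝ) => exp (-a * (y.1 ^ 2 + ∑ i, y.2 i ^ 2))) =
      fun y => exp (-a * y.1 ^ 2) * exp (-a * ∑ i, y.2 i ^ 2) := by
    ext y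
    rw [← Real.exp_add, mul_add]
  rw [h1]
  exact Integrable.mul_prod (integrable_exp_neg_mul_sq ha) (gauss_pi m ha)

theorem gauss_P (m : ℕ) {a : ℝ} (ha : 0 < a) :
    Integrable (fun p : ℝ × ℝ × (Fin m → ℝ) => exp (-a * (p.1 ^ 2 + p.2.1 ^ 2 + ∑ i, p.2.2 i ^ 2))) := by
  have h1 : (fun p : ℝ × ℝ × (Fin m → ℝ) => exp (-a * (p.1 ^ 2 + p.2.1 ^ 2 + ∑ i, p.2.2 i ^ 2))) =
      fun p => exp (-a * p.1 ^ 2) * exp (-a * (p.2.1 ^ 2 + ∑ i, p.2.2 i ^ 2)) := by
    ext p
    rw [← Real.exp_add]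
    congr 1
    ring
  rw [h1]
  exact Integrable.mul_prod (integrable_exp_neg_mul_sq ha) (gauss_Y m ha)

theorem poly_gauss {a N : ℝ} (ha : 0 < a) :
    N ^ 2 * exp (-a * N ^ 2) ≤ (2 / a) * exp (-(a / 2) * N ^ 2) := by
  have h1 : N ^ 2 ≤ (2 / a) * exp (a / 2 * N ^ 2) := by
    have h2 := Real.add_one_le_exp (a / 2 * N ^ 2)
    have h3 : N ^ 2 = (2 / a) * (a / 2 * N ^ 2) := by
      field_simp
    calc N ^ 2 = (2 / a) * (a / 2 * N ^ 2) := h3
      _ ≤ (2 / a) * exp (a / 2 * N ^ 2) := by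
        apply mul_le_mul_of_nonneg_left _ (by positivity)
        linarith
  calc N ^ 2 * exp (-a * N ^ 2) ≤ (2 / a) * exp (a / 2 * N ^ 2) * exp (-a * N ^ 2) :=
        mul_le_mul_of_nonneg_right h1 (exp_pos _).le
    _ = (2 / a) * exp (-(a / 2) * N ^ 2) := by
      rw [mul_assoc, ← Real.exp_add]
      congr 2
      ring

theorem lin_gauss {a N : ℝ} (ha : 0 < a) :
    |N| * exp (-a * N ^ 2) ≤ (1 + 2 / a) * exp (-(a / 2) * N ^ 2) := by
  have h0 : |N| ≤ 1 + N ^ 2 := by
    rw [← sq_abs]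
    nlinarith [sq_nonneg (|N| - 1), abs_nonneg N]
  have h1 := poly_gauss (N := N) ha
  have h2 : exp (-a * N ^ 2) ≤ exp (-(a / 2) * N ^ 2) := by
    apply Real.exp_le_exp.mpr
    nlinarith [sq_nonneg N]
  calc |N| * exp (-a * N ^ 2) ≤ (1 + N ^ 2) * exp (-a * N ^ 2) :=
        mul_le_mul_of_nonneg_right h0 (exp_pos _).le
    _ = exp (-a * N ^ 2) + N ^ 2 * exp (-a * N ^ 2) := by ring
    _ ≤ exp (-(a / 2) * N ^ 2) + (2 / a) * exp (-(a / 2) * N ^ 2) := add_le_add h2 h1
    _ = _ := by ring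

/-! ## The weight in coordinates -/

variable {m : ℕ} {Ψ : E (m + 2) → ℝ} {a b : ℝ}

theorem exp_le (hΨ : Wt Ψ a b) (x : E (m + 2)) : exp (-Ψ x) ≤ exp (-a * ‖x‖ ^ 2) := by
  apply Real.exp_le_exp.mpr
  have := hΨ.lo x
  linarith

theorem cont_exp (hΨ : Wt Ψ a b) : Continuous (fun x => exp (-Ψ x)) :=
  Real.continuous_exp.comp hΨ.cont.neg

theorem gauss_E {c : ℝ} (hc : 0 < c) : Integrable (fun x : E (m + 2) => exp (-c * ‖x‖ ^ 2)) := by
  have h := (integrable_slc (EuclideanSpace.basisFun (Fin (m + 2)) ℝ)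
    (φ := fun x : E (m + 2) => exp (-c * ‖x‖ ^ 2))).mp
  apply h
  simp only [norm_slc_sq]
  exact gauss_P m hc

/-- first moment is integrable -/
theorem int_norm (hΨ : Wt Ψ a b) : Integrable (fun x => ‖x‖ * exp (-Ψ x)) := by
  refine Integrable.mono' ((gauss_E (m := m) (half_pos hΨ.apos)).const_mul (1 + 2 / a)) ?_ ?_
  · exact (continuous_norm.mul (cont_exp hΨ)).aestronglyMeasurable
  · refine Filter.Eventually.of_forall fun x => ?_
    rw [Real.norm_of_nonneg (mul_nonneg (norm_nonneg _) (exp_pos _).le)]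
    have h1 := lin_gauss (N := ‖x‖) hΨ.apos
    rw [abs_of_nonneg (norm_nonneg _)] at h1
    exact (mul_le_mul_of_nonneg_left (exp_le hΨ x) (norm_nonneg _)).trans h1

theorem int_inner (hΨ : Wt Ψ a b) (u : E (m + 2)) :
    Integrable (fun x => |inner ℝ u x| * exp (-Ψ x)) := by
  refine Integrable.mono' ((int_norm hΨ).const_mul ‖u‖) ?_ ?_
  · exact ((continuous_const.inner continuous_id).abs.mul (cont_exp hΨ)).aestronglyMeasurable
  · refine Filter.Eventually.of_forall fun x => ?_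
    rw [Real.norm_of_nonneg (mul_nonneg (abs_nonneg _) (exp_pos _).le), ← mul_assoc]
    exact mul_le_mul_of_nonneg_right (abs_real_inner_le_norm u x) (exp_pos _).le

theorem FF_homog (c : ℝ) (x : E (m + 2)) : FF Ψ (c • x) = |c| * FF Ψ x := by
  unfold FF
  rw [← integral_const_mul]
  congr 1
  ext y
  rw [real_inner_smul_left, abs_mul, mul_assoc]

theorem FF_cont (hΨ : Wt Ψ a b) : Continuous (FF Ψ) := by
  have h : LipschitzWith (Real.toNNReal (∫ x, ‖x‖ * exp (-Ψ x))) (FF Ψ) := by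
    apply LipschitzWith.of_dist_le_mul
    intro u v
    rw [Real.dist_eq, dist_eq_norm]
    have hI : 0 ≤ ∫ x, ‖x‖ * exp (-Ψ x) :=
      integral_nonneg fun x => mul_nonneg (norm_nonneg _) (exp_pos _).le
    rw [Real.coe_toNNReal _ hI]
    unfold FF
    rw [← integral_sub (int_inner hΨ u) (int_inner hΨ v), mul_comm, ← integral_const_mul]
    refine abs_integral_le_integral_abs.trans ?_
    apply integral_mono_of_nonneg
    · exact Filter.Eventually.of_forall fun x => abs_nonneg _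
    · exact (int_norm hΨ).const_mul _
    · refine Filter.Eventually.of_forall fun x => ?_
      simp only
      rw [← sub_mul, abs_mul, abs_of_nonneg (exp_pos _).le, ← mul_assoc]
      apply mul_le_mul_of_nonneg_right _ (exp_pos _).le
      refine (abs_abs_sub_abs_le_abs_sub _ _).trans ?_
      rw [← inner_sub_left]
      exact abs_real_inner_le_norm _ _
  exact h.continuous

variable (bs : OrthonormalBasis (Fin (m + 2)) ℝ (E (m + 2)))

/-- the density -/
noncomputable def qq (Ψ : E (m + 2) → ℝ) (bs : OrthonormalBasis (Fin (m + 2)) ℝ (E (m + 2)))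
    (s : ℝ) : ℝ :=
  ∫ y : ℝ × (Fin m → ℝ), y.1 ^ 2 * exp (-Ψ (slc bs (-s * y.1, y)))

theorem exp_slc_le (hΨ : Wt Ψ a b) (x : ℝ) (y : ℝ × (Fin m → ℝ)) :
    exp (-Ψ (slc bs (x, y))) ≤ exp (-a * (y.1 ^ 2 + ∑ i, y.2 i ^ 2)) := by
  refine (exp_le hΨ _).trans ?_
  apply Real.exp_le_exp.mpr
  rw [norm_slc_sq]
  have : 0 ≤ a * x ^ 2 := mul_nonneg hΨ.apos.le (sq_nonneg _)
  simp only
  nlinarith

theorem bound_y (hΨ : Wt Ψ a b) (x : ℝ) (y : ℝ × (Fin m → ℝ)) :
    y.1 ^ 2 * exp (-Ψ (slc bs (x, y))) ≤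
      (2 / a) * exp (-(a / 2) * (y.1 ^ 2 + ∑ i, y.2 i ^ 2)) := by
  set N := √(y.1 ^ 2 + ∑ i, y.2 i ^ 2) with hN
  have h0 : 0 ≤ ∑ i, y.2 i ^ 2 := Finset.sum_nonneg fun i _ => sq_nonneg _
  have h1 : N ^ 2 = y.1 ^ 2 + ∑ i, y.2 i ^ 2 := Real.sq_sqrt (add_nonneg (sq_nonneg _) h0)
  have h2 := poly_gauss (N := N) hΨ.apos
  have h3 := exp_slc_le bs hΨ x y
  rw [← h1] at h3 ⊢
  refine le_trans ?_ h2
  calc y.1 ^ 2 * exp (-Ψ (slc bs (x, y))) ≤ N ^ 2 * exp (-Ψ (slc bs (x, y))) := by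
        apply mul_le_mul_of_nonneg_right _ (exp_pos _).le
        rw [h1]
        linarith
    _ ≤ N ^ 2 * exp (-a * N ^ 2) := mul_le_mul_of_nonneg_left h3 (sq_nonneg _)

theorem cont_slc_exp (hΨ : Wt Ψ a b) :
    Continuous (fun p : ℝ × ℝ × (Fin m → ℝ) => exp (-Ψ (slc bs p))) :=
  (cont_exp hΨ).comp (continuous_slc bs)

theorem int_y (hΨ : Wt Ψ a b) {g : ℝ × (Fin m → ℝ) → ℝ} (hg : Continuous g) :
    Integrable (fun y : ℝ × (Fin m → ℝ) => y.1 ^ 2 * exp (-Ψ (slc bs (g y, y)))) := by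
  refine Integrable.mono' ((gauss_Y m (half_pos hΨ.apos)).const_mul (2 / a)) ?_ ?_
  · apply Continuous.aestronglyMeasurable
    exact (continuous_fst.pow 2).mul ((cont_slc_exp bs hΨ).comp (hg.prodMk continuous_id))
  · refine Filter.Eventually.of_forall fun y => ?_
    rw [Real.norm_of_nonneg (mul_nonneg (sq_nonneg _) (exp_pos _).le)]
    exact bound_y bs hΨ _ y

theorem qq_nonneg (s : ℝ) : 0 ≤ qq Ψ bs s :=
  integral_nonneg fun y => mul_nonneg (sq_nonneg _) (exp_pos _).le

theorem qq_cont (hΨ : Wt Ψ a b) : Continuous (qq Ψ bs) := by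
  apply continuous_of_dominated
    (bound := fun y : ℝ × (Fin m → ℝ) => (2 / a) * exp (-(a / 2) * (y.1 ^ 2 + ∑ i, y.2 i ^ 2)))
  · intro s
    apply Continuous.aestronglyMeasurable
    exact (continuous_fst.pow 2).mul ((cont_slc_exp bs hΨ).comp
      ((continuous_const.mul continuous_fst).prodMk continuous_id))
  · intro s
    refine Filter.Eventually.of_forall fun y => ?_
    rw [Real.norm_of_nonneg (mul_nonneg (sq_nonneg _) (exp_pos _).le)]
    exact bound_y bs hΨ _ y
  · exact (gauss_Y m (half_pos hΨ.apos)).const_mul (2 / a)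
  · refine Filter.Eventually.of_forall fun y => ?_
    exact continuous_const.mul ((cont_slc_exp bs hΨ).comp
      ((continuous_neg.mul continuous_const).prodMk continuous_const))

/-! ## Tonelli -/

theorem inner_line (t : ℝ) (p : ℝ × ℝ × (Fin m → ℝ)) :
    inner ℝ (bs 0 + t • bs 1) (slc bs p) = p.1 + t * p.2.1 := by
  rw [inner_add_left, real_inner_smul_left, inner_slc_zero, inner_slc_one]

theorem ae_ne_zero_Y : ∀ᵐ y : ℝ × (Fin m → ℝ), y.1 ≠ 0 := by
  have h : ∀ᵐ x : ℝ, x ≠ 0 := by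
    rw [ae_iff]; simp
  exact Measure.quasiMeasurePreserving_fst.ae h

theorem lint_line (hΨ : Wt Ψ a b) (t : ℝ) :
    ∫⁻ x, ENNReal.ofReal (|inner ℝ (bs 0 + t • bs 1) x| * exp (-Ψ x)) =
      ∫⁻ s, ENNReal.ofReal (|t - s| * qq Ψ bs s) := by
  have hcE := cont_slc_exp bs hΨ
  have hm1 : Measurable (fun p : ℝ × ℝ × (Fin m → ℝ) =>
      ENNReal.ofReal (|p.1 + t * p.2.1| * exp (-Ψ (slc bs p)))) := by
    apply ENNReal.measurable_ofReal.comp
    apply Continuous.measurable
    exact ((continuous_fst.add (continuous_const.mul (continuous_fst.comp continuous_snd))).abs).mul hcE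
  calc ∫⁻ x, ENNReal.ofReal (|inner ℝ (bs 0 + t • bs 1) x| * exp (-Ψ x))
      = ∫⁻ p : ℝ × ℝ × (Fin m → ℝ), ENNReal.ofReal (|p.1 + t * p.2.1| * exp (-Ψ (slc bs p))) := by
        rw [← (measurePreserving_slc bs).lintegral_comp_emb (measurableEmbedding_slc bs)]
        simp only [inner_line]
    _ = ∫⁻ y : ℝ × (Fin m → ℝ), ∫⁻ α : ℝ,
          ENNReal.ofReal (|α + t * y.1| * exp (-Ψ (slc bs (α, y)))) := by
        rw [Measure.volume_eq_prod, lintegral_prod_symm _ hm1.aemeasurable]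
    _ = ∫⁻ y : ℝ × (Fin m → ℝ), ∫⁻ s : ℝ,
          ENNReal.ofReal (|t - s| * (y.1 ^ 2 * exp (-Ψ (slc bs (-s * y.1, y))))) := by
        apply lintegral_congr_ae
        filter_upwards [ae_ne_zero_Y] with y hy
        have hmα : Measurable (fun α : ℝ =>
            ENNReal.ofReal (|α + t * y.1| * exp (-Ψ (slc bs (α, y))))) :=
          hm1.comp (measurable_id.prodMk measurable_const)
        rw [lint_scale hmα (neg_ne_zero.mpr hy), abs_neg, ← lintegral_const_mul']
        · apply lintegral_congr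
          intro s
          rw [← ENNReal.ofReal_mul (abs_nonneg _)]
          congr 1
          have e1 : -y.1 * s + t * y.1 = (t - s) * y.1 := by ring
          have e2 : -y.1 * s = -s * y.1 := by ring
          rw [e1, e2, abs_mul, ← sq_abs y.1]
          ring
        · exact ENNReal.ofReal_ne_top
    _ = ∫⁻ s : ℝ, ∫⁻ y : ℝ × (Fin m → ℝ),
          ENNReal.ofReal (|t - s| * (y.1 ^ 2 * exp (-Ψ (slc bs (-s * y.1, y))))) := by
        apply lintegral_lintegral_swap
        apply Measurable.aemeasurable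
        apply ENNReal.measurable_ofReal.comp
        apply Continuous.measurable
        have c1 : Continuous (fun z : (ℝ × (Fin m → ℝ)) × ℝ => z.1.1) :=
          continuous_fst.comp continuous_fst
        have c2 : Continuous (fun z : (ℝ × (Fin m → ℝ)) × ℝ => (-z.2 * z.1.1, z.1)) :=
          (continuous_snd.neg.mul c1).prodMk continuous_fst
        exact ((continuous_const.sub continuous_snd).abs).mul ((c1.pow 2).mul (hcE.comp c2))
    _ = ∫⁻ s, ENNReal.ofReal (|t - s| * qq Ψ bs s) := by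
        apply lintegral_congr
        intro s
        have h1 : ∀ y : ℝ × (Fin m → ℝ),
            ENNReal.ofReal (|t - s| * (y.1 ^ 2 * exp (-Ψ (slc bs (-s * y.1, y))))) =
            ENNReal.ofReal |t - s| * ENNReal.ofReal (y.1 ^ 2 * exp (-Ψ (slc bs (-s * y.1, y)))) :=
          fun y => ENNReal.ofReal_mul (abs_nonneg _)
        simp_rw [h1]
        rw [lintegral_const_mul' _ _ ENNReal.ofReal_ne_top, ENNReal.ofReal_mul (abs_nonneg _), qq,
          ofReal_integral_eq_lintegral_ofReal]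
        · exact int_y bs hΨ (g := fun y => -s * y.1) (continuous_const.mul continuous_fst)
        · exact Filter.Eventually.of_forall fun y => mul_nonneg (sq_nonneg _) (exp_pos _).le

theorem int_line (hΨ : Wt Ψ a b) (t : ℝ) : Integrable (fun s => |t - s| * qq Ψ bs s) := by
  refine ⟨?_, ?_⟩
  · exact ((continuous_const.sub continuous_id).abs.mul (qq_cont bs hΨ)).aestronglyMeasurable
  · rw [hasFiniteIntegral_iff_ofReal]
    · rw [← lint_line bs hΨ t]
      have := (int_inner hΨ (bs 0 + t • bs 1)).hasFiniteIntegral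
      rwa [hasFiniteIntegral_iff_ofReal] at this
      exact Filter.Eventually.of_forall fun x => mul_nonneg (abs_nonneg _) (exp_pos _).le
    · exact Filter.Eventually.of_forall fun s => mul_nonneg (abs_nonneg _) (qq_nonneg bs s)

theorem FF_line (hΨ : Wt Ψ a b) (t : ℝ) :
    FF Ψ (bs 0 + t • bs 1) = ∫ s, |t - s| * qq Ψ bs s := by
  unfold FF
  rw [integral_eq_lintegral_of_nonneg_ae, integral_eq_lintegral_of_nonneg_ae, lint_line bs hΨ t]
  · exact Filter.Eventually.of_forall fun s => mul_nonneg (abs_nonneg _) (qq_nonneg bs s)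
  · exact (int_line bs hΨ t).aestronglyMeasurable
  · exact Filter.Eventually.of_forall fun x => mul_nonneg (abs_nonneg _) (exp_pos _).le
  · exact (int_inner hΨ _).aestronglyMeasurable

theorem int_qq (hΨ : Wt Ψ a b) : Integrable (qq Ψ bs) := by
  have h1 := (int_line bs hΨ 0).add (int_line bs hΨ 1)
  refine Integrable.mono' h1 (qq_cont bs hΨ).aestronglyMeasurable ?_
  refine Filter.Eventually.of_forall fun s => ?_
  have h0 := qq_nonneg bs (Ψ := Ψ) s
  rw [Real.norm_of_nonneg h0]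
  simp only [Pi.add_apply]
  rw [← add_mul]
  have h2 : 1 ≤ |0 - s| + |1 - s| := by
    have := abs_sub (1 - s) (0 - s)
    have h3 : (1 - s) - (0 - s) = 1 := by ring
    rw [h3, abs_one] at this
    linarith
  calc qq Ψ bs s = 1 * qq Ψ bs s := (one_mul _).symm
    _ ≤ _ := mul_le_mul_of_nonneg_right h2 h0

/-! ## Rotated basis -/

theorem exists_rot (s : ℝ) : ∃ b' : OrthonormalBasis (Fin (m + 2)) ℝ (E (m + 2)),
    b' 1 = (√(1 + s ^ 2))⁻¹ • (-s • bs 0 + bs 1) ∧ ∀ i : Fin m, b' i.succ.succ = bs i.succ.succ := by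
  set r := √(1 + s ^ 2) with hr
  have hr0 : 0 < r := Real.sqrt_pos.mpr (by positivity)
  have hr2 : r ^ 2 = 1 + s ^ 2 := Real.sq_sqrt (by positivity)
  have h10 : (1 : Fin (m + 2)) = Fin.succ 0 := rfl
  have hb : ∀ i j, inner ℝ (bs i) (bs j) = if i = j then (1 : ℝ) else 0 :=
    orthonormal_iff_ite.mp bs.orthonormal
  set v : Fin (m + 2) → E (m + 2) :=
    Fin.cons (r⁻¹ • (bs 0 + s • bs 1)) (Fin.cons (r⁻¹ • (-s • bs 0 + bs 1))
      (fun i : Fin m => bs i.succ.succ)) with hv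
  have hv0 : v 0 = r⁻¹ • (bs 0 + s • bs 1) := rfl
  have hv1 : v 1 = r⁻¹ • (-s • bs 0 + bs 1) := rfl
  have hv2 : ∀ i : Fin m, v i.succ.succ = bs i.succ.succ := fun i => rfl
  have n0 : ∀ i : Fin m, (0 : Fin (m + 2)) ≠ i.succ.succ := fun i => (Fin.succ_ne_zero _).symm
  have n1 : ∀ i : Fin m, (1 : Fin (m + 2)) ≠ i.succ.succ := fun i => by
    rw [h10]
    intro h
    exact (Fin.succ_ne_zero i) (Fin.succ_injective _ h).symm
  have n01 : (0 : Fin (m + 2)) ≠ 1 := by
    rw [h10]; exact (Fin.succ_ne_zero _).symm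
  have i00 : inner ℝ (bs 0) (bs 0) = (1 : ℝ) := by rw [hb, if_pos rfl]
  have i11 : inner ℝ (bs 1) (bs 1) = (1 : ℝ) := by rw [hb, if_pos rfl]
  have i01 : inner ℝ (bs 0) (bs 1) = (0 : ℝ) := by rw [hb, if_neg n01]
  have i10 : inner ℝ (bs 1) (bs 0) = (0 : ℝ) := by rw [hb, if_neg n01.symm]
  have j0 : ∀ i : Fin m, inner ℝ (bs 0) (bs i.succ.succ) = (0 : ℝ) := fun i => by
    rw [hb, if_neg (n0 i)]
  have j1 : ∀ i : Fin m, inner ℝ (bs 1) (bs i.succ.succ) = (0 : ℝ) := fun i => by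
    rw [hb, if_neg (n1 i)]
  have a00 : inner ℝ (v 0) (v 0) = (1 : ℝ) := by
    rw [hv0]
    simp only [real_inner_smul_left, real_inner_smul_right, inner_add_left, inner_add_right, i00,
      i11, i01, i10]
    field_simp
    rw [hr2]
    ring
  have a11 : inner ℝ (v 1) (v 1) = (1 : ℝ) := by
    rw [hv1]
    simp only [real_inner_smul_left, real_inner_smul_right, inner_add_left, inner_add_right, i00,
      i11, i01, i10]
    field_simp
    rw [hr2]
    ring
  have a01 : inner ℝ (v 0) (v 1) = (0 : ℝ) := by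
    rw [hv0, hv1]
    simp only [real_inner_smul_left, real_inner_smul_right, inner_add_left, inner_add_right, i00,
      i11, i01, i10]
    ring
  have a0i : ∀ i : Fin m, inner ℝ (v 0) (v i.succ.succ) = (0 : ℝ) := fun i => by
    rw [hv0, hv2]
    simp only [real_inner_smul_left, inner_add_left, j0, j1]
    ring
  have a1i : ∀ i : Fin m, inner ℝ (v 1) (v i.succ.succ) = (0 : ℝ) := fun i => by
    rw [hv1, hv2]
    simp only [real_inner_smul_left, inner_add_left, j0, j1]
    ring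
  have ho : Orthonormal ℝ v := by
    rw [orthonormal_iff_ite]
    intro i j
    refine Fin.cases ?_ (fun i => Fin.cases ?_ (fun i => ?_) i) i
    · refine Fin.cases ?_ (fun j => Fin.cases ?_ (fun j => ?_) j) j
      · rw [if_pos rfl]; exact a00
      · rw [← h10, if_neg n01]; exact a01
      · rw [if_neg (n0 j)]; exact a0i j
    · refine Fin.cases ?_ (fun j => Fin.cases ?_ (fun j => ?_) j) j
      · rw [← h10, if_neg n01.symm, real_inner_comm]; exact a01
      · rw [if_pos rfl]; exact a11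
      · rw [← h10, if_neg (n1 j)]; exact a1i j
    · refine Fin.cases ?_ (fun j => Fin.cases ?_ (fun j => ?_) j) j
      · rw [if_neg (n0 i).symm, real_inner_comm]; exact a0i i
      · rw [← h10, if_neg (n1 i).symm, real_inner_comm]; exact a1i i
      · rw [hv2, hv2]; exact hb _ _
  have hcard : Module.finrank ℝ (E (m + 2)) = Fintype.card (Fin (m + 2)) := by simp
  obtain ⟨b', hb'⟩ := Orthonormal.exists_orthonormalBasis_extension_of_card_eq hcard
    (v := v) (s := univ) (ho.comp _ Subtype.val_injective)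
  refine ⟨b', ?_, fun i => ?_⟩
  · rw [hb' 1 (mem_univ _), hv1]
  · rw [hb' _ (mem_univ _), hv2]

theorem qq_eq (hΨ : Wt Ψ a b) (s : ℝ) : ∃ b' : OrthonormalBasis (Fin (m + 2)) ℝ (E (m + 2)),
    qq Ψ bs s = JJ Ψ b' / (√(1 + s ^ 2)) ^ 3 := by
  obtain ⟨b', h1, h2⟩ := exists_rot bs s
  refine ⟨b', ?_⟩
  set r := √(1 + s ^ 2) with hr
  have hr0 : 0 < r := Real.sqrt_pos.mpr (by positivity)
  have hs : ∀ (c : ℝ) (z : Fin m → ℝ), slc bs (-s * c, (c, z)) = slc b' (0, (r * c, z)) := by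
    intro c z
    unfold slc
    simp only
    rw [h1, zero_smul, zero_add, smul_smul, mul_comm r c, mul_assoc, mul_inv_cancel₀ hr0.ne',
      mul_one, smul_add, smul_smul]
    simp only [h2]
    congr 3
    ring
  have e1 : qq Ψ bs s = ∫ z : Fin m → ℝ, ∫ c : ℝ, c ^ 2 * exp (-Ψ (slc b' (0, (r * c, z)))) := by
    unfold qq
    rw [Measure.volume_eq_prod, integral_prod_symm]
    · simp only [hs]
    · exact int_y bs hΨ (g := fun y => -s * y.1) (continuous_const.mul continuous_fst)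
  have e2 : JJ Ψ b' = ∫ z : Fin m → ℝ, ∫ c : ℝ, c ^ 2 * exp (-Ψ (slc b' (0, (c, z)))) := by
    unfold JJ
    rw [Measure.volume_eq_prod, integral_prod_symm]
    exact int_y b' hΨ (g := fun _ => 0) continuous_const
  rw [e1, e2, ← integral_div]
  congr 1
  ext z
  have h3 := Measure.integral_comp_mul_left
    (fun x : ℝ => x ^ 2 * exp (-Ψ (slc b' (0, (x, z))))) r
  rw [abs_of_pos (inv_pos.mpr hr0), smul_eq_mul] at h3
  have h4 : ∀ c : ℝ, c ^ 2 * exp (-Ψ (slc b' (0, (r * c, z)))) =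
      (r ^ 2)⁻¹ * ((r * c) ^ 2 * exp (-Ψ (slc b' (0, (r * c, z))))) := by
    intro c
    field_simp
  simp_rw [h4]
  rw [integral_const_mul, h3]
  field_simp

theorem exists_basis {v w : E (m + 2)} (hv : ‖v‖ = 1) (hw : ‖w‖ = 1) (hvw : inner ℝ v w = 0) :
    ∃ bs : OrthonormalBasis (Fin (m + 2)) ℝ (E (m + 2)), bs 0 = v ∧ bs 1 = w := by
  have h10 : (1 : Fin (m + 2)) = Fin.succ 0 := rfl
  have n01 : (0 : Fin (m + 2)) ≠ 1 := by
    rw [h10]; exact (Fin.succ_ne_zero _).symm
  set f : Fin (m + 2) → E (m + 2) := Fin.cons v (fun _ => w) with hf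
  have f0 : f 0 = v := rfl
  have f1 : f 1 = w := rfl
  have hcard : Module.finrank ℝ (E (m + 2)) = Fintype.card (Fin (m + 2)) := by simp
  have ho : Orthonormal ℝ (({0, 1} : Set (Fin (m + 2))).domRestrict f) := by
    refine ⟨?_, ?_⟩
    · rintro ⟨i, hi⟩
      rcases hi with rfl | hi
      · exact hv
      · rw [mem_singleton_iff] at hi
        subst hi
        exact hw
    · rintro ⟨i, hi⟩ ⟨j, hj⟩ hij
      have hij' : i ≠ j := fun h => hij (Subtype.ext h)
      rcases hi with rfl | hi <;> rcases hj with rfl | hj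
      · exact absurd rfl hij'
      · rw [mem_singleton_iff] at hj
        subst hj
        exact hvw
      · rw [mem_singleton_iff] at hi
        subst hi
        show inner ℝ w v = 0
        rw [real_inner_comm]
        exact hvw
      · rw [mem_singleton_iff] at hi hj
        exact absurd (hi.trans hj.symm) hij'
  obtain ⟨b', hb'⟩ := Orthonormal.exists_orthonormalBasis_extension_of_card_eq hcard ho
  refine ⟨b', ?_, ?_⟩
  · rw [hb' 0 (by simp), f0]
  · rw [hb' 1 (by simp), f1]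

/-- The line formula gives admissibility. -/
theorem adm_of_slices : S_adm_of_slices := by
  intro m Ψ a b j1 j2 hΨ hJ
  refine ⟨FF_homog, FF_cont hΨ, ?_⟩
  intro v w hv hw hvw
  obtain ⟨bs, rfl, rfl⟩ := exists_basis hv hw hvw
  refine ⟨fun t => ∫ s, sg (t - s) * qq Ψ bs s, fun t => 2 * (√(1 + t ^ 2)) ^ 3 * qq Ψ bs t, ?_, ?_, ?_⟩
  · intro t
    have h := hasDerivAt_g (qq_cont bs hΨ) (int_qq bs hΨ) (int_line bs hΨ) t
    refine h.congr_of_eventuallyEq ?_
    exact Filter.Eventually.of_forall fun t => FF_line bs hΨ t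
  · intro t
    have h := hasDerivAt_G (qq_cont bs hΨ) (int_qq bs hΨ) t
    have hr0 : 0 < √(1 + t ^ 2) := Real.sqrt_pos.mpr (by positivity)
    convert h using 1
    field_simp
  · intro t
    obtain ⟨b', hb'⟩ := qq_eq bs hΨ t
    have hr0 : 0 < √(1 + t ^ 2) := Real.sqrt_pos.mpr (by positivity)
    have h1 : 2 * (√(1 + t ^ 2)) ^ 3 * qq Ψ bs t = 2 * JJ Ψ b' := by
      rw [hb']
      field_simp
    simp only
    rw [h1]
    obtain ⟨h2, h3⟩ := hJ b'
    constructor <;> linarith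

end Pool.Agent.Helper9HV
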